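import Pool.Agent.N206.CG.Af

/-!
# Project CG (helper206), F4 by helper592: normal subgroups of the affine groups over prime fields
-/

set_option autoImplicit false

namespace Pool.Agent.N592.CG

open Pool.Agent.N206.CG Pool.Agent.N206.CG.Af

theorem rot_mem : ∀ i : Fin 5, (Equiv.addRight i : Equiv.Perm (Fin 5)) ∈ alternatingGroup (Fin 5) := by
  intro i
  rw [Equiv.Perm.mem_alternatingGroup]
  revert i
  decide

theorem k1_mem : (Equiv.swap 1 2 * Equiv.swap 3 4 : Equiv.Perm (Fin 5)) ∈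
    alternatingGroup (Fin 5) := by
  rw [Equiv.Perm.mem_alternatingGroup]
  decide

theorem k2_mem : (Equiv.swap 1 3 * Equiv.swap 2 4 : Equiv.Perm (Fin 5)) ∈
    alternatingGroup (Fin 5) := by
  rw [Equiv.Perm.mem_alternatingGroup]
  decide

theorem k3_mem : (Equiv.swap 1 4 * Equiv.swap 2 3 : Equiv.Perm (Fin 5)) ∈
    alternatingGroup (Fin 5) := by
  rw [Equiv.Perm.mem_alternatingGroup]
  decide

section

variable {R : Type} [CommRing R]

/-- the vectors `w ⊗ ω₀` -/
def om (w : Fin 2 → R) : EE R :=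
  ⟨fun k j => w k * (if j = 0 then -4 else 1), by
    intro k
    simp [Fin.sum_univ_succ]
    ring⟩

theorem om_add (w w' : Fin 2 → R) : om (w + w') = om w + om w' := by
  apply Subtype.ext
  funext k j
  exact add_mul _ _ _

theorem om_zero : om (0 : Fin 2 → R) = 0 := by
  apply Subtype.ext
  funext k j
  exact zero_mul _

/-- `om` as a homomorphism -/
def omH : (Fin 2 → R) →+ EE R where
  toFun := om
  map_zero' := om_zero
  map_add' := om_add

theorem klein (v : EE R) : v + pa (Equiv.swap 1 2 * Equiv.swap 3 4) v +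
    pa (Equiv.swap 1 3 * Equiv.swap 2 4) v + pa (Equiv.swap 1 4 * Equiv.swap 2 3) v =
    -om (fun k => v.1 k 0) := by
  apply Subtype.ext
  funext k j
  have hs : v.1 k 0 + v.1 k 1 + v.1 k 2 + v.1 k 3 + v.1 k 4 = 0 := by
    have h := v.2 k
    rw [Fin.sum_univ_five] at h
    exact h
  show v.1 k j + v.1 k ((Equiv.swap 1 2 * Equiv.swap 3 4 : Equiv.Perm (Fin 5))⁻¹ j) +
    v.1 k ((Equiv.swap 1 3 * Equiv.swap 2 4 : Equiv.Perm (Fin 5))⁻¹ j) +
    v.1 k ((Equiv.swap 1 4 * Equiv.swap 2 3 : Equiv.Perm (Fin 5))⁻¹ j) =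
    -(v.1 k 0 * (if j = 0 then -4 else 1))
  fin_cases j
  · show v.1 k 0 + v.1 k 0 + v.1 k 0 + v.1 k 0 = -(v.1 k 0 * (-4))
    ring
  · show v.1 k 1 + v.1 k 2 + v.1 k 3 + v.1 k 4 = -(v.1 k 0 * 1)
    linear_combination hs
  · show v.1 k 2 + v.1 k 1 + v.1 k 4 + v.1 k 3 = -(v.1 k 0 * 1)
    linear_combination hs
  · show v.1 k 3 + v.1 k 4 + v.1 k 1 + v.1 k 2 = -(v.1 k 0 * 1)
    linear_combination hs
  · show v.1 k 4 + v.1 k 3 + v.1 k 2 + v.1 k 1 = -(v.1 k 0 * 1)
    linear_combination hs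

theorem coe_sum {ι : Type} (s : Finset ι) (f : ι → EE R) (k : Fin 2) (j : Fin 5) :
    (∑ i ∈ s, f i : EE R).1 k j = ∑ i ∈ s, (f i).1 k j := by
  rw [AddSubgroup.val_finsetSum, Finset.sum_apply, Finset.sum_apply]

theorem nsmul_apply (n : ℕ) (v : EE R) (k : Fin 2) (j : Fin 5) :
    (n • v : EE R).1 k j = n * v.1 k j := by
  rw [← nsmul_eq_mul]
  rfl

theorem rot_sum (v : EE R) : ∑ i : Fin 5, (pa (Equiv.addRight i) v - v) = -((5 : ℕ) • v) := by
  apply Subtype.ext
  funext k j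
  rw [coe_sum]
  have h1 : ∀ i : Fin 5, (pa (Equiv.addRight i) v - v).1 k j = v.1 k (j - i) - v.1 k j := by
    intro i
    show v.1 k (j + -i) - v.1 k j = _
    rw [sub_eq_add_neg j i]
  simp only [h1]
  rw [Finset.sum_sub_distrib]
  have h2 : ∑ i : Fin 5, v.1 k (j - i) = 0 := by
    rw [← v.2 k]
    exact Equiv.sum_comp (Equiv.subLeft j) (fun l => v.1 k l)
  rw [h2, zero_sub]
  show _ = -((5 : ℕ) • v : EE R).1 k j
  rw [nsmul_apply]
  simp

theorem om_sum (v : EE R) : ∑ i : Fin 5, pa (Equiv.addRight i) (om (fun k => v.1 k i)) =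
    -((5 : ℕ) • v) := by
  apply Subtype.ext
  funext k j
  rw [coe_sum]
  have h1 : ∀ i : Fin 5, (pa (Equiv.addRight i) (om (fun k => v.1 k i))).1 k j =
      v.1 k i - (if i = j then 5 * v.1 k i else 0) := by
    intro i
    show v.1 k i * (if j + -i = 0 then -4 else 1) = _
    by_cases h : i = j
    · rw [if_pos h, if_pos (by rw [h]; exact add_neg_cancel j)]
      ring
    · rw [if_neg h, if_neg (by
        intro h2
        apply h
        have h3 := sub_eq_zero.1 (show j - i = 0 by rw [sub_eq_add_neg]; exact h2)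
        exact h3.symm)]
      ring
  simp only [h1]
  rw [Finset.sum_sub_distrib, v.2 k, Finset.sum_ite_eq' Finset.univ j (fun i => 5 * v.1 k i),
    if_pos (Finset.mem_univ j)]
  show _ = -((5 : ℕ) • v : EE R).1 k j
  rw [nsmul_apply]
  simp

/-- the linear part -/
def prA : Aff R →* A5 where
  toFun g := g.a
  map_one' := rfl
  map_mul' _ _ := rfl

theorem tmul (v w : EE R) : (⟨1, v⟩ : Aff R) * ⟨1, w⟩ = ⟨1, v + w⟩ := rfl

/-- the translations in `M` -/
def TS (M : Subgroup (Aff R)) : AddSubgroup (EE R) where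
  carrier := {v | (⟨1, v⟩ : Aff R) ∈ M}
  zero_mem' := M.one_mem
  add_mem' := by
    intro a b ha hb
    have h := M.mul_mem ha hb
    rw [tmul] at h
    exact h
  neg_mem' := by
    intro a ha
    have h := M.inv_mem ha
    have h2 : (⟨1, a⟩ : Aff R)⁻¹ = ⟨1, -a⟩ := by
      apply Aff.ext
      · exact inv_one
      · rfl
    rw [h2] at h
    exact h

theorem TS_pa (M : Subgroup (Aff R)) (hM : M.Normal) (b : A5) (v : EE R) (hv : v ∈ TS M) :
    pa b v ∈ TS M := by
  have h := hM.conj_mem _ hv (⟨b, 0⟩ : Aff R)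
  have h2 : (⟨b, 0⟩ : Aff R) * ⟨1, v⟩ * (⟨b, 0⟩ : Aff R)⁻¹ = ⟨1, pa b v⟩ := by
    rw [mul_inv_eq_iff_eq_mul]
    apply Aff.ext
    · show b * 1 = 1 * b
      rw [mul_one, one_mul]
    · show (0 : EE R) + pa b v = pa b v + pa ((1 : A5) : Equiv.Perm (Fin 5)) 0
      rw [pa_zero, zero_add, add_zero]
  rw [h2] at h
  exact h

theorem TS_comm (M : Subgroup (Aff R)) (hM : M.Normal) (b : A5) (t v : EE R)
    (ht : (⟨b, t⟩ : Aff R) ∈ M) : pa b v - v ∈ TS M := by
  have h1 := hM.conj_mem _ (M.inv_mem ht) (⟨1, v⟩ : Aff R)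
  have h2 := M.mul_mem ht h1
  have h3 : (⟨b, t⟩ : Aff R) * ((⟨1, v⟩ : Aff R) * (⟨b, t⟩ : Aff R)⁻¹ * (⟨1, v⟩ : Aff R)⁻¹) =
      ⟨1, pa b v - v⟩ := by
    rw [← mul_assoc, ← mul_assoc, mul_inv_eq_iff_eq_mul, mul_inv_eq_iff_eq_mul]
    apply Aff.ext
    · show b * 1 = 1 * 1 * b
      rw [mul_one, one_mul, one_mul]
    · show t + pa b v = (pa b v - v + v) + t
      rw [sub_add_cancel, add_comm]
  rw [h3] at h2
  exact h2

end

theorem div5 (p : ℕ) (hp : p.Prime) (h : 1000 ≤ p) (T : AddSubgroup (EE (ZMod p)))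
    (v : EE (ZMod p)) (hv : (5 : ℕ) • v ∈ T) : v ∈ T := by
  have h1 : Nat.Coprime 5 p := (Nat.coprime_primes Nat.prime_five hp).2 (by omega)
  obtain ⟨a, b, h2⟩ := Nat.isCoprime_iff_coprime.2 h1
  have h3 : (p : ℕ) • v = 0 := by
    apply Subtype.ext
    funext k j
    rw [nsmul_apply]
    show ((p : ℕ) : ZMod p) * v.1 k j = 0
    rw [ZMod.natCast_self, zero_mul]
  have h4 : v = a • ((5 : ℕ) • v) := by
    calc v = (1 : ℤ) • v := (one_zsmul v).symm
      _ = (a * ((5 : ℕ) : ℤ) + b * ((p : ℕ) : ℤ)) • v := by rw [h2]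
      _ = a • ((5 : ℕ) • v) + b • ((p : ℕ) • v) := by
        rw [add_smul, mul_smul, mul_smul, natCast_zsmul, natCast_zsmul]
      _ = a • ((5 : ℕ) • v) := by rw [h3, zsmul_zero, add_zero]
  rw [h4]
  exact T.zsmul_mem hv a

theorem t_F4 : S_F4 := by
  intro p hp hp1 N hN hconj
  set M : Subgroup (Aff (ZMod p)) := N.comap act with hM
  have hMn : M.Normal := by
    constructor
    intro n hn g
    show act (g * n * g⁻¹) ∈ N
    rw [map_mul, map_mul, map_inv]
    exact hconj _ ⟨g, rfl⟩ _ hn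
  have hK : (M.map prA).Normal := hMn.map prA (fun a => ⟨⟨a, 0⟩, rfl⟩)
  have hsimple : M.map prA = ⊥ ∨ M.map prA = ⊤ := hK.eq_bot_or_eq_top
  rcases hsimple with hbot | htop
  · -- only translations
    right
    refine ⟨(TS M).comap omH, ?_⟩
    have key : ∀ v : EE (ZMod p), v ∈ TS M ↔ ∀ i, (fun k => v.1 k i) ∈ (TS M).comap omH := by
      intro v
      constructor
      · intro hv i
        -- rotate `i` to `0`
        have h1 : pa (Equiv.addRight (-i)) v ∈ TS M := TS_pa M hMn ⟨_, rot_mem (-i)⟩ v hv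
        have h2 := (TS M).add_mem ((TS M).add_mem ((TS M).add_mem h1
          (TS_pa M hMn ⟨_, k1_mem⟩ _ h1)) (TS_pa M hMn ⟨_, k2_mem⟩ _ h1))
          (TS_pa M hMn ⟨_, k3_mem⟩ _ h1)
        have h3 := klein (pa (Equiv.addRight (-i)) v)
        have h4 : -om (fun k => (pa (Equiv.addRight (-i)) v).1 k 0) ∈ TS M := by
          rw [← h3]
          exact h2
        have h5 := (TS M).neg_mem h4
        rw [neg_neg] at h5
        show om (fun k => v.1 k i) ∈ TS M
        have h6 : (fun k => (pa (Equiv.addRight (-i)) v).1 k 0) = fun k => v.1 k i := by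
          funext k
          show v.1 k (0 + - -i) = v.1 k i
          rw [neg_neg, zero_add]
        rw [h6] at h5
        exact h5
      · intro hv
        apply div5 p hp hp1
        have h1 : ∑ i : Fin 5, pa (Equiv.addRight i) (om (fun k => v.1 k i)) ∈ TS M :=
          (TS M).sum_mem fun i _ => TS_pa M hMn ⟨_, rot_mem i⟩ _ (hv i)
        rw [om_sum] at h1
        have h2 := (TS M).neg_mem h1
        rw [neg_neg] at h2
        exact h2
    intro g
    constructor
    · intro hg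
      obtain ⟨⟨a, t⟩, rfl⟩ := hN hg
      have h1 : (⟨a, t⟩ : Aff (ZMod p)) ∈ M := hg
      have h2 : a ∈ M.map prA := ⟨_, h1, rfl⟩
      rw [hbot, Subgroup.mem_bot] at h2
      subst h2
      exact ⟨t, (key t).1 h1, rfl⟩
    · rintro ⟨t, ht, rfl⟩
      exact (key t).2 ht
  · left
    have hT : ∀ v : EE (ZMod p), v ∈ TS M := by
      intro v
      apply div5 p hp hp1
      have h1 : ∑ i : Fin 5, (pa (Equiv.addRight i) v - v) ∈ TS M := by
        refine (TS M).sum_mem fun i _ => ?_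
        have h2 : (⟨_, rot_mem i⟩ : A5) ∈ M.map prA := by
          rw [htop]
          trivial
        obtain ⟨⟨b, t⟩, h3, h4⟩ := h2
        have h5 : b = ⟨_, rot_mem i⟩ := h4
        subst h5
        exact TS_comm M hMn _ t v h3
      rw [rot_sum] at h1
      have h2 := (TS M).neg_mem h1
      rw [neg_neg] at h2
      exact h2
    apply le_antisymm hN
    rintro _ ⟨⟨b, t⟩, rfl⟩
    have h2 : b ∈ M.map prA := by
      rw [htop]
      trivial
    obtain ⟨⟨b', t'⟩, h3, h4⟩ := h2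
    have h5 : b' = b := h4
    subst h5
    have h6 := M.mul_mem (hT (t - t')) h3
    have h7 : (⟨1, t - t'⟩ : Aff (ZMod p)) * ⟨b', t'⟩ = ⟨b', t⟩ := by
      apply Aff.ext
      · exact one_mul b'
      · show (t - t') + t' = t
        exact sub_add_cancel t t'
    rw [h7] at h6
    exact h6

end Pool.Agent.N592.CG
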